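import Pool.Agent.H27.L1.H34.GZ.Targets1

/-!
# Subgroups of `Z^m` with flag conditions: the sum of the inverse indices
-/

set_option autoImplicit false

open scoped ENNReal

namespace Pool.Agent.H27.L1.H4.GZ

open Pool.Agent.H27.L1.H34.GM Pool.Agent.H27.L1.H34.GZ

section Abs

variable {G : Type} [AddCommGroup G]

private theorem idx (c : G →+ ℤ) (F F' : AddSubgroup G) (hF : ∀ x, x ∈ F ↔ x ∈ F' ∧ c x = 0)
    (hc : F'.map c = ⊤) (M : AddSubgroup G) (hM : M ≤ F') :
    M.relIndex F' = M.relIndex F * (M.map c).index := by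
  have hFF : F ≤ F' := fun x hx => ((hF x).1 hx).1
  have e1 : M ⊔ F = F' ⊓ (M.map c).comap c := by
    apply le_antisymm
    · refine sup_le (le_inf hM (AddSubgroup.le_comap_map c M)) (le_inf hFF fun x hx => ?_)
      rw [AddSubgroup.mem_comap, ((hF x).1 hx).2]
      exact zero_mem _
    · rintro x ⟨hx, hx'⟩
      obtain ⟨y, hy, hyx⟩ := AddSubgroup.mem_map.1 (AddSubgroup.mem_comap.1 hx')
      have h1 : x - y ∈ F := (hF _).2 ⟨sub_mem hx (hM hy), by rw [map_sub, hyx, sub_self]⟩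
      have h2 := add_mem (AddSubgroup.mem_sup_left (T := F) hy)
        (AddSubgroup.mem_sup_right (S := M) h1)
      rwa [add_sub_cancel] at h2
  have e2 : (M ⊔ F).relIndex F' = (M.map c).index := by
    rw [e1, AddSubgroup.inf_relIndex_left, AddSubgroup.relIndex_comap, hc,
      AddSubgroup.relIndex_top_right]
  rw [← AddSubgroup.relIndex_mul_relIndex M (M ⊔ F) F' le_sup_left (sup_le hM hFF), e2,
    AddSubgroup.relIndex_sup_left]

private theorem gen (S : AddSubgroup ℤ) (h : S.index ≠ 0) : S = AddSubgroup.zmultiples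
    (S.index : ℤ) := by
  have h1 : ((S.index : ℕ) : ℤ) ∈ S := by
    have := S.nsmul_index_mem (1 : ℤ)
    simpa using this
  have h2 : AddSubgroup.zmultiples (S.index : ℤ) ≤ S := by
    rw [AddSubgroup.zmultiples_le]
    exact h1
  have h3 := AddSubgroup.relIndex_mul_index h2
  rw [Int.index_zmultiples, Int.natAbs_natCast] at h3
  have h4 : (AddSubgroup.zmultiples (S.index : ℤ)).relIndex S = 1 :=
    Nat.eq_of_mul_eq_mul_right (Nat.pos_of_ne_zero h) (by rw [h3, one_mul])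
  exact le_antisymm (AddSubgroup.relIndex_eq_one.1 h4) h2

private theorem sub_aux (c : G →+ ℤ) (F F' : AddSubgroup G)
    (hF : ∀ x, x ∈ F ↔ x ∈ F' ∧ c x = 0) (M N : AddSubgroup G) (hM : M ≤ F')
    (hMN : M ⊓ F = N ⊓ F) (t : ℕ) (ht : t ≠ 0) (hMt : (M.map c).index = t) (w w' : G)
    (hw : w ∈ M) (hw' : w' ∈ N) (hcw : c w = t) (hcw' : c w' = t) (hd : w - w' ∈ M ⊓ F) :
    M ≤ N := by
  intro x hx
  have h1 : c x ∈ M.map c := AddSubgroup.mem_map_of_mem c hx
  rw [gen (M.map c) (by rw [hMt]; exact ht), hMt, AddSubgroup.mem_zmultiples_iff] at h1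
  obtain ⟨n, hn⟩ := h1
  have h2 : x - n • w ∈ M ⊓ F := by
    refine AddSubgroup.mem_inf.2 ⟨sub_mem hx (zsmul_mem hw n),
      (hF _).2 ⟨sub_mem (hM hx) (zsmul_mem (hM hw) n), ?_⟩⟩
    rw [map_sub, map_zsmul, hcw, hn, sub_self]
  have h3 : w ∈ N := by
    rw [hMN] at hd
    have := add_mem hd.1 hw'
    rwa [sub_add_cancel] at this
  rw [hMN] at h2
  have := add_mem h2.1 (zsmul_mem h3 n)
  rwa [sub_add_cancel] at this

/-- the number of the `M` with given `M'` and `t` -/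
private theorem count (c : G →+ ℤ) (F F' P M' : AddSubgroup G)
    (hF : ∀ x, x ∈ F ↔ x ∈ F' ∧ c x = 0) (hP : P ≤ F') (t : ℕ) (ht : t ≠ 0)
    (hfin : M'.relIndex (P ⊓ F) ≠ 0) (a : ℝ≥0∞) (S : Set (AddSubgroup G))
    (hS : ∀ M ∈ S, M ≤ P ∧ M ⊓ F = M' ∧ (M.map c).index = t) :
    ∑' _ : S, a ≤ (M'.relIndex (P ⊓ F) : ℝ≥0∞) * a := by
  classical
  have hw : ∀ M : S, ∃ w ∈ M.1, c w = t := by
    intro M
    have h1 := (hS M.1 M.2).2.2
    have h2 : (t : ℤ) ∈ M.1.map c := by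
      rw [gen (M.1.map c) (by rw [h1]; exact ht), h1]
      exact AddSubgroup.mem_zmultiples _
    exact AddSubgroup.mem_map.1 h2
  choose w hwM hwt using hw
  rcases isEmpty_or_nonempty S with hE | ⟨⟨M₀⟩⟩
  · rw [tsum_empty]
    exact zero_le
  · have hd : ∀ M : S, w M - w M₀ ∈ P ⊓ F := by
      intro M
      have h1 : w M - w M₀ ∈ P := sub_mem ((hS M.1 M.2).1 (hwM M)) ((hS M₀.1 M₀.2).1 (hwM M₀))
      exact ⟨h1, (hF _).2 ⟨hP h1, by rw [map_sub, hwt, hwt, sub_self]⟩⟩
    let φ : S → ((P ⊓ F : AddSubgroup G) ⧸ M'.addSubgroupOf (P ⊓ F)) := fun M =>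
      QuotientAddGroup.mk ⟨w M - w M₀, hd M⟩
    have hφ : Function.Injective φ := by
      intro M N hMN
      have h1 := QuotientAddGroup.eq.1 hMN
      rw [AddSubgroup.mem_addSubgroupOf] at h1
      have h2 : -(w M - w M₀) + (w N - w M₀) ∈ M' := h1
      have h3 : w N - w M ∈ M' := by
        have e : -(w M - w M₀) + (w N - w M₀) = w N - w M := by abel
        rwa [e] at h2
      have h4 : w M - w N ∈ M' := by
        rw [← neg_sub]
        exact neg_mem h3
      have hM := hS M.1 M.2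
      have hN := hS N.1 N.2
      apply Subtype.ext
      apply le_antisymm
      · exact sub_aux c F F' hF M.1 N.1 (hM.1.trans hP) (hM.2.1.trans hN.2.1.symm) t ht hM.2.2
          (w M) (w N) (hwM M) (hwM N) (hwt M) (hwt N) (by rw [hM.2.1]; exact h4)
      · exact sub_aux c F F' hF N.1 M.1 (hN.1.trans hP) (hN.2.1.trans hM.2.1.symm) t ht hN.2.2
          (w N) (w M) (hwM N) (hwM M) (hwt N) (hwt M) (by rw [hN.2.1]; exact h3)
    have h5 : Nat.card ((P ⊓ F : AddSubgroup G) ⧸ M'.addSubgroupOf (P ⊓ F)) =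
        M'.relIndex (P ⊓ F) := rfl
    haveI : Finite ((P ⊓ F : AddSubgroup G) ⧸ M'.addSubgroupOf (P ⊓ F)) :=
      Nat.finite_of_card_ne_zero (by rw [h5]; exact hfin)
    calc ∑' _ : S, a = ∑' M : S, (fun _ => a) (φ M) := rfl
      _ ≤ ∑' q : ((P ⊓ F : AddSubgroup G) ⧸ M'.addSubgroupOf (P ⊓ F)), (fun _ => a) q :=
          ENNReal.tsum_comp_le_tsum_of_injective hφ _
      _ = (M'.relIndex (P ⊓ F) : ℝ≥0∞) * a := by
          haveI := Fintype.ofFinite ((P ⊓ F : AddSubgroup G) ⧸ M'.addSubgroupOf (P ⊓ F))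
          rw [tsum_fintype, Finset.sum_const, Finset.card_univ, ← Nat.card_eq_fintype_card, h5,
            nsmul_eq_mul]

/-- the harmonic sum -/
private theorem harm (H : ℝ) (hH : 1 ≤ H) (a : ℝ≥0∞) :
    ∑' s : ℕ, (if 1 ≤ s ∧ (s : ℝ) ≤ H then ((s : ℝ≥0∞))⁻¹ * a else 0) ≤
      ENNReal.ofReal (1 + Real.log H) * a := by
  classical
  have h1 : ∀ s : ℕ, s ∉ Finset.Icc 1 ⌊H⌋₊ →
      (if 1 ≤ s ∧ (s : ℝ) ≤ H then ((s : ℝ≥0∞))⁻¹ * a else 0) = 0 := by
    intro s hs
    rw [if_neg]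
    rintro ⟨h2, h3⟩
    exact hs (Finset.mem_Icc.2 ⟨h2, Nat.le_floor h3⟩)
  rw [tsum_eq_sum h1]
  have h2 : ∑ s ∈ Finset.Icc 1 ⌊H⌋₊, (if 1 ≤ s ∧ (s : ℝ) ≤ H then ((s : ℝ≥0∞))⁻¹ * a else 0) ≤
      ∑ s ∈ Finset.Icc 1 ⌊H⌋₊, ENNReal.ofReal ((s : ℝ)⁻¹) * a := by
    refine Finset.sum_le_sum fun s hs => ?_
    split_ifs
    · have h3 : (0 : ℝ) < s := by
        have := (Finset.mem_Icc.1 hs).1
        exact_mod_cast this
      rw [ENNReal.ofReal_inv_of_pos h3, ENNReal.ofReal_natCast]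
    · exact zero_le
  refine h2.trans ?_
  rw [← Finset.sum_mul, ← ENNReal.ofReal_sum_of_nonneg fun s _ => by positivity]
  gcongr
  have h3 := harmonic_floor_le_one_add_log H hH
  rw [harmonic_eq_sum_Icc] at h3
  push_cast at h3
  exact h3

/-- the sum over the `M` with given `M'` -/
private theorem fibre (c : G →+ ℤ) (F F' P M' : AddSubgroup G)
    (hF : ∀ x, x ∈ F ↔ x ∈ F' ∧ c x = 0) (hc : F'.map c = ⊤) (hP : P ≤ F')
    (hP0 : P.relIndex F' ≠ 0) (hM'P : M' ≤ P) (hM'F : M' ≤ F) (hM0 : M'.relIndex F ≠ 0) (H : ℝ)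
    (hH : 1 ≤ H) (S : Set (AddSubgroup G))
    (hS : ∀ M ∈ S, M ≤ P ∧ M ⊓ F = M' ∧ M.relIndex F' ≠ 0 ∧ (M.relIndex F' : ℝ) ≤ H) :
    ∑' M : S, ((M.1.relIndex F' : ℕ) : ℝ≥0∞)⁻¹ ≤
      ENNReal.ofReal (1 + Real.log H) * ((P.relIndex F' : ℕ) : ℝ≥0∞)⁻¹ := by
  classical
  have hFF : F ≤ F' := fun x hx => ((hF x).1 hx).1
  set r := M'.relIndex (P ⊓ F) with hr
  set p := (P ⊓ F).relIndex F with hp
  set kap := (P.map c).index with hkap
  have hPF : P.relIndex F = p := by rw [hp, AddSubgroup.inf_relIndex_right]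
  have h1 : P.relIndex F' = p * kap := by rw [idx c F F' hF hc P hP, hPF]
  have h2 : r * p = M'.relIndex F :=
    AddSubgroup.relIndex_mul_relIndex M' (P ⊓ F) F (le_inf hM'P hM'F) inf_le_right
  have hr0 : r ≠ 0 := fun h => hM0 (by rw [← h2, h, zero_mul])
  have hp0 : p ≠ 0 := fun h => hM0 (by rw [← h2, h, mul_zero])
  have hk0 : kap ≠ 0 := fun h => hP0 (by rw [h1, h, mul_zero])
  have hMi : ∀ M : S, M.1.relIndex F' = r * p * (M.1.map c).index := by
    intro M
    obtain ⟨h3, h4, -, -⟩ := hS M.1 M.2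
    rw [idx c F F' hF hc M.1 (h3.trans hP), h2, ← h4, AddSubgroup.inf_relIndex_right]
  have hMt : ∀ M : S, (M.1.map c).index ≠ 0 ∧ (((M.1.map c).index : ℕ) : ℝ) ≤ H ∧
      kap ∣ (M.1.map c).index := by
    intro M
    obtain ⟨h3, h4, h5, h6⟩ := hS M.1 M.2
    have h7 := hMi M
    have h8 : (M.1.map c).index ≠ 0 := fun h => h5 (by rw [h7, h, mul_zero])
    refine ⟨h8, le_trans ?_ h6, AddSubgroup.index_dvd_of_le (AddSubgroup.map_mono h3)⟩
    rw [h7]
    have : (M.1.map c).index ≤ r * p * (M.1.map c).index :=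
      Nat.le_mul_of_pos_left _ (Nat.pos_of_ne_zero (mul_ne_zero hr0 hp0))
    exact_mod_cast this
  have h3 : ∑' M : S, ((M.1.relIndex F' : ℕ) : ℝ≥0∞)⁻¹ =
      ∑' t : ℕ, ∑' M : S, (if (M.1.map c).index = t then (((r * p * t : ℕ)) : ℝ≥0∞)⁻¹ else 0) := by
    rw [ENNReal.tsum_comm]
    refine tsum_congr fun M => ?_
    rw [tsum_eq_single (M.1.map c).index fun t ht => if_neg ht.symm, if_pos rfl, hMi M]
  have h4 : ∀ t : ℕ, ∑' M : S, (if (M.1.map c).index = t then
      (((r * p * t : ℕ)) : ℝ≥0∞)⁻¹ else 0) ≤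
      if t ≠ 0 ∧ (t : ℝ) ≤ H ∧ kap ∣ t then ((p * t : ℕ) : ℝ≥0∞)⁻¹ else 0 := by
    intro t
    by_cases hE : ∃ M : S, (M.1.map c).index = t
    · obtain ⟨M₀, hM₀⟩ := hE
      have h5 := hMt M₀
      rw [hM₀] at h5
      rw [if_pos h5]
      have h6 : ∑' M : S, (if (M.1.map c).index = t then
          (((r * p * t : ℕ)) : ℝ≥0∞)⁻¹ else 0) ≤ ∑' _ : {M : AddSubgroup G | M ∈ S ∧
            (M.map c).index = t}, (((r * p * t : ℕ)) : ℝ≥0∞)⁻¹ := by
        rw [tsum_subtype S (fun M => if (M.map c).index = t then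
          (((r * p * t : ℕ)) : ℝ≥0∞)⁻¹ else 0), tsum_subtype {M : AddSubgroup G | M ∈ S ∧
            (M.map c).index = t} (fun _ => (((r * p * t : ℕ)) : ℝ≥0∞)⁻¹)]
        refine ENNReal.tsum_le_tsum fun M => ?_
        unfold Set.indicator
        by_cases hM : M ∈ S
        · by_cases hMt : (M.map c).index = t
          · simp [hM, hMt]
          · simp [hM, hMt]
        · simp [hM]
      refine h6.trans ((count c F F' P M' hF hP t h5.1 hr0 _ _ fun M hM => ?_).trans ?_)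
      · exact ⟨(hS M hM.1).1, (hS M hM.1).2.1, hM.2⟩
      · rw [← hr]
        have h7 : (r : ℝ≥0∞) ≠ 0 := by exact_mod_cast hr0
        have h8 : (r : ℝ≥0∞) ≠ ⊤ := ENNReal.natCast_ne_top r
        rw [mul_assoc, Nat.cast_mul, ENNReal.mul_inv (Or.inl h7) (Or.inl h8), ← mul_assoc,
          ENNReal.mul_inv_cancel h7 h8, one_mul]
    · push Not at hE
      rw [ENNReal.tsum_eq_zero.2 fun M => if_neg (hE M)]
      exact zero_le
  rw [h3]
  refine (ENNReal.tsum_le_tsum h4).trans ?_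
  have hinj : Function.Injective (fun s : ℕ => kap * s) := fun a b hab =>
    Nat.eq_of_mul_eq_mul_left (Nat.pos_of_ne_zero hk0) hab
  rw [← hinj.tsum_eq (f := fun t : ℕ => if t ≠ 0 ∧ (t : ℝ) ≤ H ∧ kap ∣ t then
    ((p * t : ℕ) : ℝ≥0∞)⁻¹ else 0) ?_]
  · refine le_trans (ENNReal.tsum_le_tsum fun s => ?_) (harm H hH _)
    split_ifs with h5 h6 h6
    · rw [h1]
      have e : p * (kap * s) = s * (p * kap) := by ring
      have h7 : ((s : ℕ) : ℝ≥0∞) ≠ 0 := by
        have : s ≠ 0 := by omega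
        exact_mod_cast this
      rw [e, Nat.cast_mul, ENNReal.mul_inv (Or.inl h7) (Or.inl (ENNReal.natCast_ne_top s))]
    · exfalso
      apply h6
      obtain ⟨h7, h8, -⟩ := h5
      have h9 : s ≠ 0 := fun h => h7 (by rw [h, mul_zero])
      refine ⟨Nat.one_le_iff_ne_zero.2 h9, le_trans ?_ h8⟩
      have : s ≤ kap * s := Nat.le_mul_of_pos_left _ (Nat.pos_of_ne_zero hk0)
      exact_mod_cast this
    · exact zero_le
    · exact zero_le
  · intro t ht
    rw [Function.mem_support] at ht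
    have h5 : kap ∣ t := by
      by_contra h
      exact ht (if_neg fun h' => h h'.2.2)
    obtain ⟨s, rfl⟩ := h5
    exact ⟨s, rfl⟩

end Abs

/-- the coordinate -/
private def co (m : ℕ) (i : Fin m) : (Fin m → ℤ) →+ ℤ := Pi.evalAddMonoidHom (fun _ => ℤ) i

private theorem flg_mem {m i : ℕ} {v : Fin m → ℤ} :
    v ∈ flg m i ↔ ∀ j : Fin m, i ≤ (j : ℕ) → v j = 0 := Iff.rfl

private theorem flg_succ (m : ℕ) (i : Fin m) (x : Fin m → ℤ) :
    x ∈ flg m i ↔ x ∈ flg m ((i : ℕ) + 1) ∧ co m i x = 0 := by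
  rw [flg_mem, flg_mem]
  constructor
  · intro h
    exact ⟨fun j hj => h j (by omega), h i le_rfl⟩
  · rintro ⟨h1, h2⟩ j hj
    rcases Nat.eq_or_lt_of_le hj with h | h
    · have : j = i := Fin.ext h.symm
      rw [this]
      exact h2
    · exact h1 j h

private theorem flg_mono (m : ℕ) {i j : ℕ} (h : i ≤ j) : flg m i ≤ flg m j :=
  fun _ hv l hl => hv l (h.trans hl)

private theorem flg_map (m : ℕ) (i : Fin m) : (flg m ((i : ℕ) + 1)).map (co m i) = ⊤ := by
  rw [eq_top_iff]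
  intro z _
  refine AddSubgroup.mem_map.2 ⟨Pi.single i z, fun j hj => ?_, ?_⟩
  · have : j ≠ i := by
      rintro rfl
      omega
    show (Pi.single i z : Fin m → ℤ) j = 0
    rw [Pi.single_apply, if_neg this]
  · show (Pi.single i z : Fin m → ℤ) i = z
    rw [Pi.single_apply, if_pos rfl]

theorem pf_FLG : T_FLG := by
  classical
  intro m i hi H hH K hK1 hK2 hK3
  induction i with
  | zero =>
    rw [tsum_eq_single ⊥]
    · split_ifs
      · simp
      · exact zero_le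
    · intro M hM
      rw [if_neg]
      rintro ⟨h1, -⟩
      apply hM
      rw [eq_bot_iff]
      intro v hv
      rw [AddSubgroup.mem_bot]
      funext j
      exact h1 hv j (Nat.zero_le _)
  | succ i ih =>
    have hi' : i < m := by omega
    have ih' := ih (by omega)
    set L := ENNReal.ofReal (1 + Real.log H) * (((K (i + 1)).relIndex (flg m (i + 1)) : ℕ) :
      ℝ≥0∞)⁻¹ with hL
    -- the conditions
    let A : ℕ → AddSubgroup (Fin m → ℤ) → Prop := fun i M => M ≤ flg m i ∧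
      M.relIndex (flg m i) ≠ 0 ∧ (M.relIndex (flg m i) : ℝ) ≤ H ∧ ∀ j ≤ i, M ⊓ flg m j ≤ K j
    let f : AddSubgroup (Fin m → ℤ) → ℝ≥0∞ := fun M =>
      ∏ j ∈ Finset.range i, ((M.relIndex (flg m (j + 1)) : ℕ) : ℝ≥0∞)⁻¹
    have hlog : (0 : ℝ) ≤ 1 + Real.log H := by
      have := Real.log_nonneg hH
      linarith
    have step : ∑' M : AddSubgroup (Fin m → ℤ), (if A (i + 1) M then
        ∏ j ∈ Finset.range (i + 1), ((M.relIndex (flg m (j + 1)) : ℕ) : ℝ≥0∞)⁻¹ else 0) ≤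
        L * ∑' M : AddSubgroup (Fin m → ℤ), (if A i M then f M else 0) := by
      have e1 : ∀ M : AddSubgroup (Fin m → ℤ), (if A (i + 1) M then
          ∏ j ∈ Finset.range (i + 1), ((M.relIndex (flg m (j + 1)) : ℕ) : ℝ≥0∞)⁻¹ else 0) =
          ∑' M' : AddSubgroup (Fin m → ℤ), (if A (i + 1) M ∧ M ⊓ flg m i = M' then
            f M' * ((M.relIndex (flg m (i + 1)) : ℕ) : ℝ≥0∞)⁻¹ else 0) := by
        intro M
        rw [tsum_eq_single (M ⊓ flg m i) fun M' h => if_neg fun h' => h h'.2.symm]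
        simp only [and_true]
        split_ifs
        · rw [Finset.prod_range_succ]
          congr 1
          refine Finset.prod_congr rfl fun j hj => ?_
          have h1 : (M ⊓ flg m i).relIndex (flg m (j + 1)) = M.relIndex (flg m (j + 1)) := by
            have h2 : flg m (j + 1) ≤ flg m i := flg_mono m (by
              have := Finset.mem_range.1 hj
              omega)
            rw [← AddSubgroup.inf_relIndex_right, inf_assoc, inf_eq_right.2 h2,
              AddSubgroup.inf_relIndex_right]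
          rw [h1]
        · rfl
      rw [tsum_congr e1, ENNReal.tsum_comm, ← ENNReal.tsum_mul_left]
      refine ENNReal.tsum_le_tsum fun M' => ?_
      set S : Set (AddSubgroup (Fin m → ℤ)) := {M | A (i + 1) M ∧ M ⊓ flg m i = M'} with hS
      have e2 : ∑' M : AddSubgroup (Fin m → ℤ), (if A (i + 1) M ∧ M ⊓ flg m i = M' then
          f M' * ((M.relIndex (flg m (i + 1)) : ℕ) : ℝ≥0∞)⁻¹ else 0) =
          f M' * ∑' M : S, ((M.1.relIndex (flg m (i + 1)) : ℕ) : ℝ≥0∞)⁻¹ := by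
        rw [← ENNReal.tsum_mul_left, tsum_subtype S (fun M =>
          f M' * ((M.relIndex (flg m (i + 1)) : ℕ) : ℝ≥0∞)⁻¹)]
        refine tsum_congr fun M => ?_
        by_cases h : A (i + 1) M ∧ M ⊓ flg m i = M'
        · rw [if_pos h, Set.indicator_of_mem (show M ∈ S from h)]
        · rw [if_neg h, Set.indicator_of_notMem (show M ∉ S from h)]
      rw [e2]
      have hfl := flg_succ m ⟨i, hi'⟩
      have hmp := flg_map m ⟨i, hi'⟩
      have hid : ∀ M, M ≤ flg m (i + 1) → M.relIndex (flg m (i + 1)) =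
          M.relIndex (flg m i) * (M.map (co m ⟨i, hi'⟩)).index :=
        fun M hM => idx (co m ⟨i, hi'⟩) (flg m i) (flg m (i + 1)) hfl hmp M hM
      by_cases hE : S.Nonempty
      · obtain ⟨M, hM, hMM'⟩ := hE
        have hA : A i M' := by
          obtain ⟨h1, h2, h3, h4⟩ := hM
          rw [hid M h1] at h2 h3
          have h5 : M'.relIndex (flg m i) = M.relIndex (flg m i) := by
            rw [← hMM', AddSubgroup.inf_relIndex_right]
          refine ⟨by rw [← hMM']; exact inf_le_right, ?_, ?_, fun j hj => ?_⟩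
          · rw [h5]
            exact left_ne_zero_of_mul h2
          · rw [h5]
            refine le_trans ?_ h3
            have := Nat.le_mul_of_pos_right (M.relIndex (flg m i))
              (Nat.pos_of_ne_zero (right_ne_zero_of_mul h2))
            exact_mod_cast this
          · rw [← hMM', inf_assoc, inf_eq_right.2 (flg_mono m hj)]
            exact h4 j (by omega)
        rw [if_pos hA, mul_comm L]
        gcongr
        have hM'K : M' ≤ K i := by
          have := hA.2.2.2 i le_rfl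
          rwa [inf_eq_left.2 hA.1] at this
        refine fibre (co m ⟨i, hi'⟩) (flg m i) (flg m (i + 1)) (K (i + 1)) M' hfl hmp (hK1 _)
          (hK3 _) (hM'K.trans (hK2 i)) hA.1 hA.2.1 H hH S ?_
        rintro N ⟨⟨h1, h2, h3, h4⟩, h5⟩
        refine ⟨?_, h5, h2, h3⟩
        have := h4 (i + 1) le_rfl
        rwa [inf_eq_left.2 h1] at this
      · rw [Set.not_nonempty_iff_eq_empty] at hE
        rw [hE]
        simp
    refine step.trans ((mul_le_mul_right ih' L).trans (le_of_eq ?_))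
    rw [hL, pow_succ, ENNReal.ofReal_mul (by positivity), Finset.prod_range_succ]
    ring

end Pool.Agent.H27.L1.H4.GZ
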