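import Pool.Agent.H27.L1.H34.GZ.Targets2

/-!
# The number of the sublattices of index `n`
-/

set_option autoImplicit false

open scoped ENNReal

namespace Pool.Agent.H27.L1.H4.GZ

open Pool.Agent.H27.L1.H34.GM Pool.Agent.H27.L1.H34.GZ

section Abs

variable {G : Type} [AddCommGroup G]

private theorem idx (c : G →+ ℤ) (F F' : AddSubgroup G) (hF : ∀ x, x ∈ F ↔ x ∈ F' ∧ c x = 0)
    (hc : F'.map c = ⊤) (M : AddSubgroup G) (hM : M ≤ F') :
    M.relIndex F' = M.relIndex F * (M.map c).index := by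
  have hFF : F ≤ F' := fun x hx => ((hF x).1 hx).1
  have e1 : M ⊔ F = F' ⊓ (M.map c).comap c := by
    apply le_antisymm
    · refine sup_le (le_inf hM (AddSubgroup.le_comap_map c M)) (le_inf hFF fun x hx => ?_)
      rw [AddSubgroup.mem_comap, ((hF x).1 hx).2]
      exact zero_mem _
    · rintro x ⟨hx, hx'⟩
      obtain ⟨y, hy, hyx⟩ := AddSubgroup.mem_map.1 (AddSubgroup.mem_comap.1 hx')
      have h1 : x - y ∈ F := (hF _).2 ⟨sub_mem hx (hM hy), by rw [map_sub, hyx, sub_self]⟩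
      have h2 := add_mem (AddSubgroup.mem_sup_left (T := F) hy)
        (AddSubgroup.mem_sup_right (S := M) h1)
      rwa [add_sub_cancel] at h2
  have e2 : (M ⊔ F).relIndex F' = (M.map c).index := by
    rw [e1, AddSubgroup.inf_relIndex_left, AddSubgroup.relIndex_comap, hc,
      AddSubgroup.relIndex_top_right]
  rw [← AddSubgroup.relIndex_mul_relIndex M (M ⊔ F) F' le_sup_left (sup_le hM hFF), e2,
    AddSubgroup.relIndex_sup_left]

private theorem gen (S : AddSubgroup ℤ) (h : S.index ≠ 0) : S = AddSubgroup.zmultiples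
    (S.index : ℤ) := by
  have h1 : ((S.index : ℕ) : ℤ) ∈ S := by
    have := S.nsmul_index_mem (1 : ℤ)
    simpa using this
  have h2 : AddSubgroup.zmultiples (S.index : ℤ) ≤ S := by
    rw [AddSubgroup.zmultiples_le]
    exact h1
  have h3 := AddSubgroup.relIndex_mul_index h2
  rw [Int.index_zmultiples, Int.natAbs_natCast] at h3
  have h4 : (AddSubgroup.zmultiples (S.index : ℤ)).relIndex S = 1 :=
    Nat.eq_of_mul_eq_mul_right (Nat.pos_of_ne_zero h) (by rw [h3, one_mul])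
  exact le_antisymm (AddSubgroup.relIndex_eq_one.1 h4) h2

private theorem sub_aux (c : G →+ ℤ) (F F' : AddSubgroup G)
    (hF : ∀ x, x ∈ F ↔ x ∈ F' ∧ c x = 0) (M N : AddSubgroup G) (hM : M ≤ F')
    (hMN : M ⊓ F = N ⊓ F) (t : ℕ) (ht : t ≠ 0) (hMt : (M.map c).index = t) (w w' : G)
    (hw : w ∈ M) (hw' : w' ∈ N) (hcw : c w = t) (hcw' : c w' = t) (hd : w - w' ∈ M ⊓ F) :
    M ≤ N := by
  intro x hx
  have h1 : c x ∈ M.map c := AddSubgroup.mem_map_of_mem c hx
  rw [gen (M.map c) (by rw [hMt]; exact ht), hMt, AddSubgroup.mem_zmultiples_iff] at h1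
  obtain ⟨n, hn⟩ := h1
  have h2 : x - n • w ∈ M ⊓ F := by
    refine AddSubgroup.mem_inf.2 ⟨sub_mem hx (zsmul_mem hw n),
      (hF _).2 ⟨sub_mem (hM hx) (zsmul_mem (hM hw) n), ?_⟩⟩
    rw [map_sub, map_zsmul, hcw, hn, sub_self]
  have h3 : w ∈ N := by
    rw [hMN] at hd
    have := add_mem hd.1 hw'
    rwa [sub_add_cancel] at this
  rw [hMN] at h2
  have := add_mem h2.1 (zsmul_mem h3 n)
  rwa [sub_add_cancel] at this

/-- the number of the `M` with given `M'` and `t` -/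
private theorem count (c : G →+ ℤ) (F F' P M' : AddSubgroup G)
    (hF : ∀ x, x ∈ F ↔ x ∈ F' ∧ c x = 0) (hP : P ≤ F') (t : ℕ) (ht : t ≠ 0)
    (hfin : M'.relIndex (P ⊓ F) ≠ 0) (a : ℝ≥0∞) (S : Set (AddSubgroup G))
    (hS : ∀ M ∈ S, M ≤ P ∧ M ⊓ F = M' ∧ (M.map c).index = t) :
    ∑' _ : S, a ≤ (M'.relIndex (P ⊓ F) : ℝ≥0∞) * a := by
  classical
  have hw : ∀ M : S, ∃ w ∈ M.1, c w = t := by
    intro M
    have h1 := (hS M.1 M.2).2.2
    have h2 : (t : ℤ) ∈ M.1.map c := by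
      rw [gen (M.1.map c) (by rw [h1]; exact ht), h1]
      exact AddSubgroup.mem_zmultiples _
    exact AddSubgroup.mem_map.1 h2
  choose w hwM hwt using hw
  rcases isEmpty_or_nonempty S with hE | ⟨⟨M₀⟩⟩
  · rw [tsum_empty]
    exact zero_le
  · have hd : ∀ M : S, w M - w M₀ ∈ P ⊓ F := by
      intro M
      have h1 : w M - w M₀ ∈ P := sub_mem ((hS M.1 M.2).1 (hwM M)) ((hS M₀.1 M₀.2).1 (hwM M₀))
      exact ⟨h1, (hF _).2 ⟨hP h1, by rw [map_sub, hwt, hwt, sub_self]⟩⟩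
    let φ : S → ((P ⊓ F : AddSubgroup G) ⧸ M'.addSubgroupOf (P ⊓ F)) := fun M =>
      QuotientAddGroup.mk ⟨w M - w M₀, hd M⟩
    have hφ : Function.Injective φ := by
      intro M N hMN
      have h1 := QuotientAddGroup.eq.1 hMN
      rw [AddSubgroup.mem_addSubgroupOf] at h1
      have h2 : -(w M - w M₀) + (w N - w M₀) ∈ M' := h1
      have h3 : w N - w M ∈ M' := by
        have e : -(w M - w M₀) + (w N - w M₀) = w N - w M := by abel
        rwa [e] at h2
      have h4 : w M - w N ∈ M' := by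
        rw [← neg_sub]
        exact neg_mem h3
      have hM := hS M.1 M.2
      have hN := hS N.1 N.2
      apply Subtype.ext
      apply le_antisymm
      · exact sub_aux c F F' hF M.1 N.1 (hM.1.trans hP) (hM.2.1.trans hN.2.1.symm) t ht hM.2.2
          (w M) (w N) (hwM M) (hwM N) (hwt M) (hwt N) (by rw [hM.2.1]; exact h4)
      · exact sub_aux c F F' hF N.1 M.1 (hN.1.trans hP) (hN.2.1.trans hM.2.1.symm) t ht hN.2.2
          (w N) (w M) (hwM N) (hwM M) (hwt N) (hwt M) (by rw [hN.2.1]; exact h3)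
    have h5 : Nat.card ((P ⊓ F : AddSubgroup G) ⧸ M'.addSubgroupOf (P ⊓ F)) =
        M'.relIndex (P ⊓ F) := rfl
    haveI : Finite ((P ⊓ F : AddSubgroup G) ⧸ M'.addSubgroupOf (P ⊓ F)) :=
      Nat.finite_of_card_ne_zero (by rw [h5]; exact hfin)
    calc ∑' _ : S, a = ∑' M : S, (fun _ => a) (φ M) := rfl
      _ ≤ ∑' q : ((P ⊓ F : AddSubgroup G) ⧸ M'.addSubgroupOf (P ⊓ F)), (fun _ => a) q :=
          ENNReal.tsum_comp_le_tsum_of_injective hφ _
      _ = (M'.relIndex (P ⊓ F) : ℝ≥0∞) * a := by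
          haveI := Fintype.ofFinite ((P ⊓ F : AddSubgroup G) ⧸ M'.addSubgroupOf (P ⊓ F))
          rw [tsum_fintype, Finset.sum_const, Finset.card_univ, ← Nat.card_eq_fintype_card, h5,
            nsmul_eq_mul]

end Abs

/-- the coordinate -/
private def co (m : ℕ) (i : Fin m) : (Fin m → ℤ) →+ ℤ := Pi.evalAddMonoidHom (fun _ => ℤ) i

private theorem flg_mem {m i : ℕ} {v : Fin m → ℤ} :
    v ∈ flg m i ↔ ∀ j : Fin m, i ≤ (j : ℕ) → v j = 0 := Iff.rfl

private theorem flg_succ (m : ℕ) (i : Fin m) (x : Fin m → ℤ) :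
    x ∈ flg m i ↔ x ∈ flg m ((i : ℕ) + 1) ∧ co m i x = 0 := by
  rw [flg_mem, flg_mem]
  constructor
  · intro h
    exact ⟨fun j hj => h j (by omega), h i le_rfl⟩
  · rintro ⟨h1, h2⟩ j hj
    rcases Nat.eq_or_lt_of_le hj with h | h
    · have : j = i := Fin.ext h.symm
      rw [this]
      exact h2
    · exact h1 j h

private theorem flg_mono (m : ℕ) {i j : ℕ} (h : i ≤ j) : flg m i ≤ flg m j :=
  fun _ hv l hl => hv l (h.trans hl)

private theorem flg_map (m : ℕ) (i : Fin m) : (flg m ((i : ℕ) + 1)).map (co m i) = ⊤ := by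
  rw [eq_top_iff]
  intro z _
  refine AddSubgroup.mem_map.2 ⟨Pi.single i z, fun j hj => ?_, ?_⟩
  · have : j ≠ i := by
      rintro rfl
      omega
    show (Pi.single i z : Fin m → ℤ) j = 0
    rw [Pi.single_apply, if_neg this]
  · show (Pi.single i z : Fin m → ℤ) i = z
    rw [Pi.single_apply, if_pos rfl]

/-- the number of the subgroups of index `n` of `Z^i` -/
private noncomputable def cn (m i n : ℕ) : ℝ≥0∞ := by
  classical
  exact ∑' M : AddSubgroup (Fin m → ℤ), if M ≤ flg m i ∧ M.relIndex (flg m i) = n then 1 else 0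

private theorem cn_zero (m n : ℕ) : cn m 0 n ≤ if n = 1 then 1 else 0 := by
  classical
  unfold cn
  rw [tsum_eq_single ⊥]
  · by_cases hn : n = 1
    · rw [if_pos hn]
      split_ifs
      · exact le_rfl
      · exact zero_le
    · rw [if_neg hn, if_neg]
      rintro ⟨-, h⟩
      apply hn
      rw [← h]
      have h2 : flg m 0 = ⊥ := by
        rw [eq_bot_iff]
        intro v hv
        rw [AddSubgroup.mem_bot]
        funext j
        exact hv j (Nat.zero_le _)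
      rw [h2, AddSubgroup.relIndex_self]
  · intro M hM
    rw [if_neg]
    rintro ⟨h1, -⟩
    apply hM
    rw [eq_bot_iff]
    intro v hv
    rw [AddSubgroup.mem_bot]
    funext j
    exact h1 hv j (Nat.zero_le _)

private theorem cn_succ (m i n : ℕ) (hi : i < m) (hn : n ≠ 0) :
    cn m (i + 1) n ≤ ∑ k ∈ n.divisors, (k : ℝ≥0∞) * cn m i k := by
  classical
  have hfl := flg_succ m ⟨i, hi⟩
  have hmp := flg_map m ⟨i, hi⟩
  have hid : ∀ M, M ≤ flg m (i + 1) → M.relIndex (flg m (i + 1)) =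
      M.relIndex (flg m i) * (M.map (co m ⟨i, hi⟩)).index :=
    fun M hM => idx (co m ⟨i, hi⟩) (flg m i) (flg m (i + 1)) hfl hmp M hM
  have hff : flg m (i + 1) ⊓ flg m i = flg m i := inf_eq_right.2 (flg_mono m (Nat.le_succ i))
  let A : AddSubgroup (Fin m → ℤ) → Prop := fun M => M ≤ flg m (i + 1) ∧
    M.relIndex (flg m (i + 1)) = n
  have e1 : cn m (i + 1) n = ∑' M' : AddSubgroup (Fin m → ℤ), ∑' M : AddSubgroup (Fin m → ℤ),
      if A M ∧ M ⊓ flg m i = M' then 1 else 0 := by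
    rw [ENNReal.tsum_comm]
    unfold cn
    refine tsum_congr fun M => ?_
    rw [tsum_eq_single (M ⊓ flg m i) fun M' h => if_neg fun h' => h h'.2.symm]
    simp only [and_true]
    rfl
  have e2 : ∀ M' : AddSubgroup (Fin m → ℤ), ∑' M : AddSubgroup (Fin m → ℤ),
      (if A M ∧ M ⊓ flg m i = M' then (1 : ℝ≥0∞) else 0) ≤
      ∑ k ∈ n.divisors, (k : ℝ≥0∞) *
        (if M' ≤ flg m i ∧ M'.relIndex (flg m i) = k then 1 else 0) := by
    intro M'
    set S : Set (AddSubgroup (Fin m → ℤ)) := {M | A M ∧ M ⊓ flg m i = M'} with hS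
    have e3 : ∑' M : AddSubgroup (Fin m → ℤ),
        (if A M ∧ M ⊓ flg m i = M' then (1 : ℝ≥0∞) else 0) = ∑' _ : S, (1 : ℝ≥0∞) := by
      rw [tsum_subtype S (fun _ => (1 : ℝ≥0∞))]
      refine tsum_congr fun M => ?_
      by_cases h : A M ∧ M ⊓ flg m i = M'
      · rw [if_pos h, Set.indicator_of_mem (show M ∈ S from h)]
      · rw [if_neg h, Set.indicator_of_notMem (show M ∉ S from h)]
    rw [e3]
    by_cases hE : S.Nonempty
    · obtain ⟨M₀, hM₀, hM₀'⟩ := hE
      have hM'F : M' ≤ flg m i := by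
        rw [← hM₀']
        exact inf_le_right
      have hk : ∀ M ∈ S, n = M'.relIndex (flg m i) * (M.map (co m ⟨i, hi⟩)).index := by
        rintro M ⟨⟨h1, h2⟩, h3⟩
        rw [← h2, hid M h1, ← h3, AddSubgroup.inf_relIndex_right]
      set k := M'.relIndex (flg m i) with hkdef
      have h4 := hk M₀ ⟨hM₀, hM₀'⟩
      have hk0 : k ≠ 0 := fun h => hn (by rw [h4, h, zero_mul])
      have hkn : k ∈ n.divisors := Nat.mem_divisors.2 ⟨⟨_, h4⟩, hn⟩
      set t := (M₀.map (co m ⟨i, hi⟩)).index with ht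
      have ht0 : t ≠ 0 := fun h => hn (by rw [h4, h, mul_zero])
      have h5 : ∑' _ : S, (1 : ℝ≥0∞) ≤
          (M'.relIndex (flg m (i + 1) ⊓ flg m i) : ℝ≥0∞) * 1 := by
        refine count (co m ⟨i, hi⟩) (flg m i) (flg m (i + 1)) (flg m (i + 1)) M' hfl le_rfl t ht0
          (by rw [hff]; exact hk0) 1 S fun M hM => ⟨hM.1.1, hM.2, ?_⟩
        exact Nat.eq_of_mul_eq_mul_left (Nat.pos_of_ne_zero hk0) ((hk M hM).symm.trans h4)
      rw [hff, mul_one] at h5
      refine h5.trans ?_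
      have h6 := Finset.single_le_sum (f := fun k : ℕ => (k : ℝ≥0∞) *
        (if M' ≤ flg m i ∧ M'.relIndex (flg m i) = k then 1 else 0)) (fun _ _ => zero_le) hkn
      refine le_trans (le_of_eq ?_) h6
      show _ = (k : ℝ≥0∞) * (if M' ≤ flg m i ∧ M'.relIndex (flg m i) = k then 1 else 0)
      rw [if_pos ⟨hM'F, rfl⟩, mul_one]
    · rw [Set.not_nonempty_iff_eq_empty] at hE
      rw [hE]
      simp
  rw [e1]
  refine (ENNReal.tsum_le_tsum e2).trans (le_of_eq ?_)
  rw [Summable.tsum_finsetSum fun _ _ => ENNReal.summable]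
  refine Finset.sum_congr rfl fun k _ => ?_
  rw [ENNReal.tsum_mul_left]
  rfl

private theorem div_sum (n i : ℕ) (hn : n ≠ 0) (hi : 2 ≤ i) :
    ∑ k ∈ n.divisors, k ^ i ≤ 2 * n ^ i := by
  have h1 : ∑ k ∈ n.divisors, k ^ i = ∑ t ∈ n.divisors, (n / t) ^ i :=
    (Nat.sum_div_divisors n fun k => k ^ i).symm
  have hn0 : (0 : ℝ) < n := by exact_mod_cast Nat.pos_of_ne_zero hn
  have h2 : (∑ k ∈ n.divisors, ((k ^ i : ℕ) : ℝ)) ≤ 2 * (n : ℝ) ^ i := by
    have h3 : (∑ k ∈ n.divisors, ((k ^ i : ℕ) : ℝ)) =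
        ∑ t ∈ n.divisors, (((n / t) ^ i : ℕ) : ℝ) := by
      rw [← Nat.cast_sum, h1, Nat.cast_sum]
    rw [h3]
    calc ∑ t ∈ n.divisors, (((n / t) ^ i : ℕ) : ℝ)
        ≤ ∑ t ∈ n.divisors, (n : ℝ) ^ i * ((t : ℝ) ^ 2)⁻¹ := by
          refine Finset.sum_le_sum fun t ht => ?_
          have ht0 : 0 < t := Nat.pos_of_mem_divisors ht
          have ht1 : (1 : ℝ) ≤ t := by exact_mod_cast ht0
          have h4 : ((n / t : ℕ) : ℝ) ≤ n / t := Nat.cast_div_le
          push_cast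
          calc ((n / t : ℕ) : ℝ) ^ i ≤ ((n : ℝ) / t) ^ i := by
                exact pow_le_pow_left₀ (Nat.cast_nonneg _) h4 i
            _ = (n : ℝ) ^ i * ((t : ℝ) ^ i)⁻¹ := by rw [div_pow, div_eq_mul_inv]
            _ ≤ (n : ℝ) ^ i * ((t : ℝ) ^ 2)⁻¹ := by
                gcongr
      _ = (n : ℝ) ^ i * ∑ t ∈ n.divisors, ((t : ℝ) ^ 2)⁻¹ := by rw [Finset.mul_sum]
      _ ≤ (n : ℝ) ^ i * 2 := by
          gcongr
          have h5 : ∑ t ∈ n.divisors, ((t : ℝ) ^ 2)⁻¹ ≤ ∑ t ∈ Finset.Ioo 0 (n + 1),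
              ((t : ℝ) ^ 2)⁻¹ := by
            refine Finset.sum_le_sum_of_subset_of_nonneg (fun t ht => ?_) fun _ _ _ => by positivity
            have h6 := Nat.pos_of_mem_divisors ht
            have h7 := Nat.divisor_le ht
            exact Finset.mem_Ioo.2 ⟨h6, by omega⟩
          have h8 := sum_Ioo_inv_sq_le (α := ℝ) 0 (n + 1)
          refine h5.trans (h8.trans ?_)
          norm_num
      _ = 2 * (n : ℝ) ^ i := by ring
  have h9 : ((∑ k ∈ n.divisors, k ^ i : ℕ) : ℝ) ≤ ((2 * n ^ i : ℕ) : ℝ) := by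
    push_cast
    push_cast at h2
    exact h2
  exact_mod_cast h9

private theorem cn_le (m i : ℕ) (hi : i + 1 ≤ m) (n : ℕ) (hn : n ≠ 0) :
    cn m (i + 1) n ≤ ((2 ^ i * n ^ (i + 1) : ℕ) : ℝ≥0∞) := by
  induction i generalizing n with
  | zero =>
    refine (cn_succ m 0 n (by omega) hn).trans ?_
    have h1 : ∑ k ∈ n.divisors, (k : ℝ≥0∞) * cn m 0 k ≤
        ∑ k ∈ n.divisors, (if k = 1 then 1 else 0) := by
      refine Finset.sum_le_sum fun k _ => ?_
      refine (mul_le_mul_right (cn_zero m k) _).trans ?_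
      by_cases h : k = 1
      · rw [if_pos h, h]
        simp
      · rw [if_neg h, mul_zero]
    refine h1.trans ?_
    rw [Finset.sum_ite_eq' n.divisors 1]
    have h2 : 1 ≤ n := Nat.one_le_iff_ne_zero.2 hn
    have h3 : (1 : ℝ≥0∞) ≤ ((2 ^ 0 * n ^ (0 + 1) : ℕ) : ℝ≥0∞) := by
      have : 1 ≤ 2 ^ 0 * n ^ (0 + 1) := by simpa using h2
      exact_mod_cast this
    split_ifs
    · exact h3
    · exact zero_le
  | succ i ih =>
    refine (cn_succ m (i + 1) n (by omega) hn).trans ?_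
    have h1 : ∑ k ∈ n.divisors, (k : ℝ≥0∞) * cn m (i + 1) k ≤
        ∑ k ∈ n.divisors, ((2 ^ i * k ^ (i + 2) : ℕ) : ℝ≥0∞) := by
      refine Finset.sum_le_sum fun k hk => ?_
      refine (mul_le_mul_right (ih (by omega) k (Nat.pos_of_mem_divisors hk).ne') _).trans
        (le_of_eq ?_)
      push_cast
      ring
    refine h1.trans ?_
    rw [← Nat.cast_sum, ← Finset.mul_sum]
    have h2 := div_sum n (i + 2) hn (by omega)
    have h3 : 2 ^ i * ∑ k ∈ n.divisors, k ^ (i + 2) ≤ 2 ^ (i + 1) * n ^ (i + 1 + 1) := by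
      calc 2 ^ i * ∑ k ∈ n.divisors, k ^ (i + 2) ≤ 2 ^ i * (2 * n ^ (i + 2)) :=
            Nat.mul_le_mul_left _ h2
        _ = 2 ^ (i + 1) * n ^ (i + 1 + 1) := by ring
    exact_mod_cast h3

theorem pf_TNZ : T_IDX → T_TNZ := by
  classical
  intro hI m hm
  refine ⟨2 ^ m, by positivity, fun T hT n hn => ?_⟩
  obtain ⟨i, rfl⟩ : ∃ i, m = i + 1 := ⟨m - 1, by omega⟩
  obtain ⟨h1, -, -, h4, -⟩ := hI (i + 1)
  have hn0 : n ≠ 0 := by omega
  have hdet : ∀ α ∈ T n, α.det ≠ 0 := by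
    intro α hα h
    have := hT.mem n hn α hα
    rw [h] at this
    simp at this
    omega
  have htop : flg (i + 1) (i + 1) = ⊤ := by
    rw [eq_top_iff]
    intro v _ j hj
    exact absurd j.2 (by omega)
  let S : Set (AddSubgroup (Fin (i + 1) → ℤ)) := {M | M ≤ flg (i + 1) (i + 1) ∧
    M.relIndex (flg (i + 1) (i + 1)) = n}
  let φ : T n → S := fun α => ⟨AddSubgroup.closure (Set.range α.1), by
    rw [htop]
    exact le_top, by
    rw [htop, AddSubgroup.relIndex_top_right, h1 α.1 (hdet α.1 α.2), hT.mem n hn α.1 α.2]⟩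
  have hφ : Function.Injective φ := by
    intro α β hαβ
    have h5 : AddSubgroup.closure (Set.range α.1) = AddSubgroup.closure (Set.range β.1) :=
      congrArg Subtype.val hαβ
    obtain ⟨u, hu, hβ⟩ := (h4 α.1 β.1 (hdet α.1 α.2)).1 h5
    obtain ⟨a, -, ha⟩ := hT.uniq n hn β.1 (hT.mem n hn β.1 β.2)
    have h6 := ha α.1 ⟨α.2, u, hu, hβ⟩
    have h7 := ha β.1 ⟨β.2, 1, isUnit_one, (one_mul _).symm⟩
    exact Subtype.ext (h6.trans h7.symm)
  have h8 : ((T n).card : ℝ≥0∞) ≤ cn (i + 1) (i + 1) n := by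
    calc ((T n).card : ℝ≥0∞) = ∑' _ : T n, (1 : ℝ≥0∞) := by
          rw [tsum_fintype, Finset.sum_const, Finset.card_univ, Fintype.card_coe, nsmul_eq_mul,
            mul_one]
      _ = ∑' α : T n, (fun _ : S => (1 : ℝ≥0∞)) (φ α) := rfl
      _ ≤ ∑' _ : S, (1 : ℝ≥0∞) := ENNReal.tsum_comp_le_tsum_of_injective hφ _
      _ = cn (i + 1) (i + 1) n := by
          rw [tsum_subtype S (fun _ => (1 : ℝ≥0∞))]
          unfold cn
          refine tsum_congr fun M => ?_
          by_cases h : M ≤ flg (i + 1) (i + 1) ∧ M.relIndex (flg (i + 1) (i + 1)) = n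
          · rw [if_pos h, Set.indicator_of_mem (show M ∈ S from h)]
          · rw [if_neg h, Set.indicator_of_notMem (show M ∉ S from h)]
  have h9 : (T n).card ≤ 2 ^ i * n ^ (i + 1) := by
    have := h8.trans (cn_le (i + 1) i le_rfl n hn0)
    exact_mod_cast this
  have h10 : ((T n).card : ℝ) ≤ ((2 ^ i * n ^ (i + 1) : ℕ) : ℝ) := by exact_mod_cast h9
  refine h10.trans ?_
  push_cast
  gcongr
  · norm_num
  · omega

end Pool.Agent.H27.L1.H4.GZ
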